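import Pool.Agent.Helper86.SG.Defs

/-! # Project SG, package ASM: everything together -/

set_option autoImplicit false

open Finset

namespace Pool.Agent.Helper32.SG

open _root_.SG
open _root_.SJ (supp IsV dot fib)

theorem card_of_mem_EX {n k d : ℕ} (F : Finset (Fin n → ℤ)) (S : Finset (Fin n))
    (h : S ∈ EX k d F) : #S = k := by
  classical
  unfold EX at h
  rw [mem_union] at h
  rcases h with h | h
  · unfold HH at h
    rw [mem_filter, mem_powersetCard] at h
    exact h.1.2
  · unfold LL at h
    rw [mem_filter, mem_powersetCard] at h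
    exact h.1.2

theorem HH_sub {n k d : ℕ} (F : Finset (Fin n → ℤ)) (S : Finset (Fin n)) (h : S ∉ EX k d F) :
    S ∉ HH k d F := by
  classical
  intro h1
  apply h
  unfold EX
  exact mem_union_left _ h1

theorem asm : ASMStm := by
  classical
  intro hFIB hSRC hRUL hBOUND hTOP hCENA hCENB hCENC hCNT hCON k d hk
  obtain ⟨C, hC⟩ := hBOUND k d hk
  refine ⟨C * k + 2 * k, fun n hn F hF => ?_⟩
  by_cases hcard : 2 * BB (k - 1) d * n.choose k ≤ #F
  · have hEX := hC n F hF hcard
    -- the complement of the exceptional supports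
    set V : Finset (Fin n) := univ \ (EX k d F).biUnion id with hVd
    have hVc : 2 * k ≤ #V := by
      have h1 : #((EX k d F).biUnion id) ≤ C * k := by
        refine (card_biUnion_le_card_mul _ _ k fun S hS => ?_).trans
          (Nat.mul_le_mul_right k hEX)
        exact (card_of_mem_EX F S hS).le
      have h2 : #V + #((EX k d F).biUnion id) = n := by
        rw [hVd, card_sdiff_add_card_eq_card (subset_univ _), card_univ, Fintype.card_fin]
      omega
    have hVE : ∀ S : Finset (Fin n), ¬ Disjoint S V → S ∉ EX k d F := by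
      intro S hS hSE
      apply hS
      rw [disjoint_left]
      intro x hx hxV
      rw [hVd, mem_sdiff, mem_biUnion] at hxV
      exact hxV.2 ⟨S, hSE, hx⟩
    have hstr : ∀ S : Finset (Fin n), #S = k → ¬ Disjoint S V → ∃ f c, Str k d F S f c :=
      fun S hS hSV => (hSRC n k d F hk hF.1 S hS).2 (hVE S hSV)
    have hex : ∀ S : Finset (Fin n), ∃ f : Fin n, #S = k → ¬ Disjoint S V →
        ∃ c, Str k d F S f c := by
      intro S
      by_cases h1 : #S = k ∧ ¬ Disjoint S V
      · obtain ⟨f, c, h⟩ := hstr S h1.1 h1.2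
        exact ⟨f, fun _ _ => ⟨c, h⟩⟩
      · have hn0 : 0 < n := by omega
        exact ⟨⟨0, hn0⟩, fun h2 h3 => absurd ⟨h2, h3⟩ h1⟩
    choose f hf using hex
    obtain ⟨T, v₁, hv₁, hTV, hT1, hT2⟩ := hTOP n k (by omega) V f (by omega)
      (fun S hS hSV => by
        obtain ⟨c, h⟩ := hf S hS hSV
        exact h.1)
      (fun S S' hS hS' hSV hSV' hc h1 h2 => by
        obtain ⟨c, h⟩ := hf S hS hSV
        obtain ⟨c', h'⟩ := hf S' hS' hSV'
        exact (hRUL n k d F hk hF.1 S S' hS hS' (HH_sub F S (hVE S hSV)) (by omega)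
          _ _ c c' h h').1 h1 h2)
    have hmeet : ∀ S : Finset (Fin n), v₁ ∈ S → ¬ Disjoint S V := by
      intro S hS hd
      exact (disjoint_left.1 hd hS) hv₁
    obtain ⟨c, hc, hc1⟩ := hCENA n k d F hk hF.1 T v₁ (fun S hS hST hvS => by
      refine ⟨HH_sub F S (hVE S (hmeet S hvS)), ?_⟩
      obtain ⟨c, h⟩ := hf S hS (hmeet S hvS)
      rw [hT2 S hS hST hvS] at h
      exact ⟨c, h⟩)
    have hB := hCENB n k d F hk hF T V v₁ hv₁ hTV hVc c hc hc1
    have hCf := hCENC n k d F hk hF T V hTV hVc (fun S hS hSV hST => by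
      obtain ⟨c, h⟩ := hf S hS hSV
      exact ⟨f S, hT1 S hS hSV hST, c, h⟩)
    set F₁ : Finset (Fin n → ℤ) := F.filter (fun v => Disjoint (supp v) T ∧
      #((supp v).filter (fun i => v i ≠ c i)) = d + 1) with hF₁
    have hF₁J : IndJ n k d F₁ :=
      ⟨fun v hv => hF.1 v (mem_filter.1 hv).1, fun u hu v hv huv =>
        hF.2 u (mem_filter.1 hu).1 v (mem_filter.1 hv).1 huv⟩
    obtain ⟨F', hF', hle⟩ := hCON n k d hk T c hc F₁ hF₁J fun v hv => (mem_filter.1 hv).2
    refine ⟨F', hF', ?_⟩
    set FT : Finset (Fin n → ℤ) := F.filter (fun v => ¬ Disjoint (supp v) T) with hFT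
    set F₀ : Finset (Fin n → ℤ) := F.filter (fun v => Disjoint (supp v) T ∧
      #((supp v).filter (fun i => v i ≠ c i)) ≤ d) with hF₀
    have hcov : F ⊆ FT ∪ F₀ ∪ F₁ := by
      intro v hv
      rw [mem_union, mem_union]
      by_cases hd : Disjoint (supp v) T
      · have h1 := hB v hv hd
        rcases Nat.lt_or_ge (#((supp v).filter (fun i => v i ≠ c i))) (d + 1) with h2 | h2
        · exact Or.inl (Or.inr (mem_filter.2 ⟨hv, hd, by omega⟩))
        · exact Or.inr (mem_filter.2 ⟨hv, hd, by omega⟩)
      · exact Or.inl (Or.inl (mem_filter.2 ⟨hv, hd⟩))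
    have hcardF : #F ≤ #FT + #F₀ + #F₁ :=
      (card_le_card hcov).trans ((card_union_le _ _).trans
        (Nat.add_le_add_right (card_union_le _ _) _))
    refine le_trans (hcardF.trans (Nat.add_le_add (Nat.add_le_add ?_ ?_) le_rfl)) hle
    · have h1 : #FT ≤ 2 * BB (k - 1) d * #(FT.image supp) := by
        refine card_le_mul_card_image FT _ fun S hS => ?_
        rw [mem_image] at hS
        obtain ⟨v, hv, rfl⟩ := hS
        have hv' := mem_filter.1 hv
        refine (card_le_card ?_).trans (hCf (supp v) (hF.1 v hv'.1).2 hv'.2)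
        intro w hw
        rw [mem_filter] at hw
        unfold fib
        rw [mem_filter]
        exact ⟨(mem_filter.1 hw.1).1, hw.2⟩
      refine h1.trans (Nat.mul_le_mul_left _ (card_le_card ?_))
      intro S hS
      rw [mem_image] at hS
      obtain ⟨v, hv, rfl⟩ := hS
      have hv' := mem_filter.1 hv
      rw [mem_filter, mem_powersetCard]
      exact ⟨⟨subset_univ _, (hF.1 v hv'.1).2⟩, hv'.2⟩
    · have h1 : #F₀ ≤ BB k d * #(F₀.image supp) := by
        refine card_le_mul_card_image F₀ _ fun S hS => ?_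
        rw [mem_image] at hS
        obtain ⟨v, hv, rfl⟩ := hS
        have hv' := mem_filter.1 hv
        obtain ⟨G, hG, hGc⟩ := hCNT n d (supp v) ∅ c hc (empty_subset _)
        rw [card_empty, pow_zero, one_mul, sdiff_empty, (hF.1 v hv'.1).2] at hGc
        rw [← hGc]
        apply card_le_card
        intro w hw
        rw [mem_filter] at hw
        obtain ⟨hw1, hw2⟩ := hw
        have hw' := mem_filter.1 hw1
        rw [hG w, sdiff_empty, (hF.1 v hv'.1).2]
        refine ⟨hF.1 w hw'.1, hw2, ?_⟩
        rw [← hw2]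
        exact hw'.2.2
      refine h1.trans (Nat.mul_le_mul_left _ (card_le_card ?_))
      intro S hS
      rw [mem_image] at hS
      obtain ⟨v, hv, rfl⟩ := hS
      have hv' := mem_filter.1 hv
      rw [mem_filter, mem_powersetCard]
      exact ⟨⟨subset_univ _, (hF.1 v hv'.1).2⟩, hv'.2.1⟩
  · obtain ⟨F', hF', h1⟩ := hCON n k d hk univ (fun _ => 1) (fun _ => Or.inl rfl) ∅
      ⟨by simp, by simp⟩ (by simp)
    refine ⟨F', hF', (not_le.1 hcard).le.trans (le_trans ?_ h1)⟩
    have h2 : ∀ S ∈ powersetCard k (univ : Finset (Fin n)), ¬ Disjoint S univ := by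
      intro S hS h
      rw [mem_powersetCard] at hS
      have h3 : S = ∅ := by
        rw [← disjoint_self_iff_empty]
        exact h.mono_right (subset_univ S)
      rw [h3, card_empty] at hS
      omega
    have h4 : n.choose k = #(powersetCard k (univ : Finset (Fin n))) := by
      rw [card_powersetCard, card_univ, Fintype.card_fin]
    rw [h4]
    refine le_trans (Nat.mul_le_mul_left _ (card_le_card ?_)) (Nat.le_add_right_of_le
      (Nat.le_add_right _ _))
    intro S hS
    rw [mem_filter]
    exact ⟨hS, h2 S hS⟩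

end Pool.Agent.Helper32.SG
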